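import Pool.Agent.Helper10.RP.V4
import Pool.Agent.Helper10.SE.Final

/-!
# The section conjecture for the general twists in families of cyclic covers

Let `F₀ ⊂ k₀` be fields of characteristic zero, `k₀` finitely generated, and let `w_0, …, w_m` be elements of `k₀`
such that two quotients `w_i / w_l`, `w_j / w_l` are algebraically independent over `F₀`.  For example `k₀` is the
function field of a variety of dimension at least two over `F₀` and `w_0, …, w_m` is a basis of a Riemann-Roch space
`L(D)` which maps the variety onto a variety of dimension at least two, or `k₀ = F₀(t_1, …, t_d)`, `d ≥ 2`, and the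
`w_e` are the monomials of degree at most `m ≥ 1`.

Consider an arbitrary family of cyclic covers of curves, with parameters `a = (a_1, …, a_N)`: the curves are
`M(a, x, z) = 0` for an irreducible polynomial `M ∈ k₀[A_1, …, A_N][X][Z]`, the functions on them are
`g = ∏ P_s(a, x, z) ^ e_s` for polynomials `P_s` which are not divisible by `M` and all integers `e_s`, and the cyclic
covers are `yⁿ = g` for all `n ≥ 1`.  Every curve `X` over `k₀` with a faithful action of the group scheme `μ_n` is
of this form (without parameters: `X → X / μ_n`), and so are the families of all superelliptic curves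
`yⁿ = ∏ P_s(x) ^ e_s` with `P_s ∈ L(D)[x]` monic of given degrees (the parameters are the coefficients, `M = Z`), of
all `μ_n`-covers of all plane curves of given degree, and so on.  The twists of `yⁿ = g` by the classes of
`H¹(k, μ_n) = k* / k*ⁿ` are the curves `v yⁿ = g`.

**Theorem** (`result`).  The section conjecture holds for the general twist of the general member of the family, when
`v` runs through the vector space generated by the `w_e` and the parameters are constants.  Precisely: there is ONE
polynomial `Q(a, b) ≠ 0`, with coefficients in `F₀`, in the `N + m + 1` variables `a = (a_1, …, a_N)`,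
`b = (b_0, …, b_m)`, such that the following holds for all finitely generated extension fields `F` of `F₀` and all
composites `k = F k₀` of `F` and `k₀` over `F₀` in which `F` and `k₀` are algebraically free over `F₀` (for
`k₀ = F₀(t_1, …, t_d)`: for all `F` and for `k = F(t_1, …, t_d)`), and for all points `(a, b)` over `F` outside the
hypersurface `Q = 0`.  Let `v = ∑ b_e w_e`, let `K₁ = k(x, z)` be the function field of (a component of) the curve
`M(a, x, z) = 0` over `k`, and let `g = ∏ P_s(a, x, z) ^ e_s` with any integers `e_s`.  Then for all `n ≥ 1` and all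
`j ≥ 0` which are not divisible by `n`:

* **every** Galois section of the twist `v^j yⁿ = g` over `k` is geometric, and more precisely it comes from a rational
  point of the twist over a `k`-rational place `O` of `K₁` such that `gcd(n, ord_O(g))` divides `j`.

All sections of the full fundamental group are meant, of all these curves of genus at least one, with and without
rational points.  There is no condition on the curve, on `g` and on the cover (besides that the curve `K₁(y)` is not
rational over the algebraic closure), the curves need not be isotrivial, and the exceptional members and twists lie in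
one hypersurface, which is the same for all fields of constants `F`.  The theorem determines all Galois sections: a
twist has a section if and only if it has a rational point, and the rational points lie over finitely many places `O`
which do not depend on `v`: the rational zeros and poles of `g` with `gcd(n, ord_O(g)) ∣ j`.

For example: the curve `v y² = x⁵ + c₄ x⁴ + … + c₀` of genus two with `c_q` and `v` in a space `L(D)` on a variety of
dimension at least two such that the quotients of the elements of `L(D)` have transcendence degree at least two: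
outside one hypersurface in the space of all coefficients, for all fields of constants `F`, every Galois section is
the section of the point at infinity or of a point `(x, 0)`; if the polynomial on the right hand side has no root in
`k`, there is exactly one Galois section up to conjugation, the one of the point at infinity.  The same holds for
constants `c_q ∈ F`, that is for the twists by `v` of all curves `y² = x⁵ + c₄ x⁴ + … + c₀` over `F` outside a
hypersurface.

The theorem `degrees` (not part of `result`) treats also the case where only one quotient `w_i / w_l` is known to be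
transcendental over `F₀` (so `k₀` may be a function field of one variable over `F₀`), and finite extensions `k'` of
`k`: outside one thin set, if a curve over `k'` which maps onto the twist `v^j yⁿ = g` has a Galois section, then
`[k' : k]` is a sum of numbers of the form `n / gcd(n, j)` and `[κ(O) : k] δ / gcd(δ, j)`, where `O` is a closed point
of the curve `K₁` over `k`, `κ(O)` is its residue field and `δ = gcd(n, ord_O(g))`.
-/

universe u

namespace Pool.Agent.Results.MP_e66f84_ag.TwistsUniform

open Polynomial Pool.Agent.Helper91.Sect Pool.Agent.SC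

/-- The polynomial `Q(a, X)`, whose coefficients are polynomials over `F₀` in the variables `a`, has no root in the
field of rational functions in these variables over the algebraic closure of `F₀`. -/
def NoRoot {F₀ : Type u} [Field F₀] {I : Type} (Q : (MvPolynomial I F₀)[X]) : Prop :=
  ∀ r : FractionRing (MvPolynomial I (AlgebraicClosure F₀)),
    eval₂ ((algebraMap (MvPolynomial I (AlgebraicClosure F₀))
      (FractionRing (MvPolynomial I (AlgebraicClosure F₀)))).comp
        (MvPolynomial.map (algebraMap F₀ (AlgebraicClosure F₀)))) r Q ≠ 0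

/-- The polynomial `Q(a, X)` in one variable `X` over `F`, for a point `a` over `F`. -/
noncomputable def value {F₀ F : Type u} [Field F₀] [Field F] [Algebra F₀ F] {I : Type}
    (Q : (MvPolynomial I F₀)[X]) (a : I → F) : F[X] :=
  Q.map (MvPolynomial.aeval a : MvPolynomial I F₀ →ₐ[F₀] F).toRingHom

/-- The field `k` is a composite of `F` and `k₀` over `F₀`, in which `F` and `k₀` are algebraically free over `F₀`:
it is generated by `F` and `k₀`, and elements of `k₀` which are algebraically independent over `F₀` are
algebraically independent over `F`. -/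
def FreeComposite (F₀ k₀ F k : Type u) [Field F₀] [Field k₀] [Field F] [Field k] [Algebra F₀ k₀]
    [Algebra F k] [Algebra k₀ k] : Prop :=
  IntermediateField.adjoin F (Set.range (algebraMap k₀ k)) = ⊤ ∧
    ∀ (n : ℕ) (x : Fin n → k₀), AlgebraicIndependent F₀ x →
      AlgebraicIndependent F fun i => algebraMap k₀ k (x i)

/-- The value `M(a, x, z)` of a polynomial `M ∈ k₀[A_1, …, A_N][X][Z]`; the parameters `a` are elements of `F`, and
`x`, `z` are elements of an extension `K₁` of the composite `k` of `F` and `k₀`. -/
noncomputable def val {k₀ F K₁ : Type u} (k : Type u) [Field k₀] [Field F] [Field k] [Field K₁]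
    [Algebra k₀ k] [Algebra F k] [Algebra k K₁] {N : ℕ} (a : Fin N → F) (x z : K₁)
    (M : (MvPolynomial (Fin N) k₀)[X][X]) : K₁ :=
  eval₂ (eval₂RingHom (MvPolynomial.eval₂Hom ((algebraMap k K₁).comp (algebraMap k₀ k))
    fun q => algebraMap k K₁ (algebraMap F k (a q))) x) z M

/-- The curve over `k` with function field `K` is not rational over the algebraic closure of `k`. -/
def NotRationalCurve (k K : Type u) [Field k] [Field K] [Algebra k K] : Prop :=
  ∀ z : AlgebraicClosure K,
    Subfield.closure ({c | IsAlgebraic k c} ∪ Set.range (algebraMap K (AlgebraicClosure K))) ≠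
      Subfield.closure ({c | IsAlgebraic k c} ∪ {z})

/-- `δ = gcd(n, ord_O(g))`: the divisors of `δ` are the divisors `e` of `n` such that `ord_O(g)` is divisible by `e`,
that is, `g` has the same value as some `e`-th power `x ^ e`. -/
def OrderGcd {K₀ : Type u} [Field K₀] (O : ValuationSubring K₀) (g : K₀) (n δ : ℕ) : Prop :=
  ∀ e : ℕ, e ∣ δ ↔ e ∣ n ∧ ∃ x : K₀, O.valuation g = O.valuation (x ^ e)

/-- The Galois section `s` of the curve `K` over `k` comes from a rational point, and this point lies over a place `O`
of `K₀ ⊆ K` such that `gcd(n, ord_O(g))` divides `j`: the image of `s` stabilises a nontrivial valuation ring `V` of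
`Kur` containing `kbar` (a point of the universal cover of the curve), the place of `K` below `V` has the residue field
`k` (it is a `k`-rational point of the curve), and `O` is the place of `K₀` below `V`. -/
def ComesFromPoint {k K₀ K : Type u} [Field k] [Field K₀] [Field K] [Algebra k K₀] [Algebra k K]
    [Algebra K₀ K] (g : K₀) (n j : ℕ) (s : GaloisSection k K) : Prop :=
  ∃ V : ValuationSubring (Kur k K), V ≠ ⊤ ∧ (∀ c : Kur k K, IsAlgebraic k c → c ∈ V) ∧
    (∀ (γ : Gk k K) (w : Kur k K), s.toHom γ w ∈ V ↔ w ∈ V) ∧
    (∀ z : K, algebraMap K (Kur k K) z ∈ V →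
      ∃ c : k, algebraMap K (Kur k K) (z - algebraMap k K c) ∈ V.nonunits) ∧
    ∃ δ : ℕ, OrderGcd (V.comap ((algebraMap K (Kur k K)).comp (algebraMap K₀ K))) g n δ ∧ δ ∣ j

/-- The twists `v^j yⁿ = g` of the cyclic covers `yⁿ = g`, `n ≥ 1`, by the powers of `v` (`n` does not divide `j`)
satisfy the section conjecture: if `K ⊇ K₀` is the function field of such a curve and it is not rational over `kbar`,
every Galois section of `K / k` comes from a rational point, which lies over a place `O` of `K₀` such that
`gcd(n, ord_O(g))` divides `j`. -/
def TwistsSatisfySC {k K₀ : Type u} [Field k] [Field K₀] [Algebra k K₀] (g : K₀) (v : k) : Prop :=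
  ∀ n j : ℕ, 0 < n → ¬ n ∣ j → ∀ (K : Type u) [Field K] [Algebra k K] [Algebra K₀ K] [IsScalarTower k K₀ K]
    (y : K), IntermediateField.adjoin K₀ {y} = ⊤ →
    algebraMap k K (v ^ j) * y ^ n = algebraMap K₀ K g → NotRationalCurve k K →
    ∀ s : GaloisSection k K, ComesFromPoint g n j s

/-- The residue field of the place `O ⊇ k` of `K₀` has degree `r` over `k`: it is generated by the residue of an
element `θ` of `O`, and the residue is a root of an irreducible polynomial of degree `r`. -/
def ResidueDegree (k : Type u) {K₀ : Type u} [Field k] [Field K₀] [Algebra k K₀]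
    (O : ValuationSubring K₀) (r : ℕ) : Prop :=
  ∃ θ ∈ O, ∃ q : k[X], Irreducible q ∧ q.natDegree = r ∧ aeval θ q ∈ O.nonunits ∧
    ∀ z ∈ O, ∃ h : k[X], z - aeval θ h ∈ O.nonunits

/-- `d = n / gcd(n, j)`, or `d = r δ / gcd(δ, j)` for a place `O` of `K₀ / k` of degree `r` and
`δ = gcd(n, ord_O(g))`. -/
def PointDegree (k : Type u) {K₀ : Type u} [Field k] [Field K₀] [Algebra k K₀] (g : K₀)
    (n j d : ℕ) : Prop :=
  d = n / Nat.gcd n j ∨ ∃ (O : ValuationSubring K₀) (r δ : ℕ), O ≠ ⊤ ∧
    (∀ c : k, algebraMap k K₀ c ∈ O) ∧ ResidueDegree k O r ∧ OrderGcd O g n δ ∧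
      d = r * (δ / Nat.gcd δ j)

/-- The degrees of the fields over which the twists `v^j yⁿ = g` have Galois sections: let `k'` be a finite extension
of `k`, let `K / k'` be an extension which contains `K₀` and an element `y` with `v^j yⁿ = g`, and suppose that the
curve with function field `K₀(y)` is not rational over `kbar`.  If `K / k'` has a Galois section, then `[k' : k]` is a
sum of numbers `d` with `PointDegree`. -/
def TwistsHaveSectionDegrees {k K₀ : Type u} [Field k] [Field K₀] [Algebra k K₀] (g : K₀)
    (v : k) : Prop :=
  ∀ n j : ℕ, 0 < n →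
    ∀ (k' K : Type u) [Field k'] [Algebra k k'] [FiniteDimensional k k'] [Field K] [Algebra k' K]
      [Algebra k K] [IsScalarTower k k' K] [Algebra K₀ K] [IsScalarTower k K₀ K] (y : K),
    algebraMap k K (v ^ j) * y ^ n = algebraMap K₀ K g →
    NotRationalCurve k (IntermediateField.adjoin K₀ {y}) → Nonempty (GaloisSection k' K) →
    Module.finrank k k' ∈ AddSubmonoid.closure {d | PointDegree k g n j d}

theorem closure_alg (k K : Type u) [Field k] [Field K] [Algebra k K] (A : Set (AlgebraicClosure K)) :
    Subfield.closure ({c | IsAlgebraic k c} ∪ A) =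
      (IntermediateField.adjoin (kbar k K) A).toSubfield := by
  rw [← range_kbar]
  rfl

theorem not_rational {k K : Type u} [Field k] [Field K] [Algebra k K]
    (h : NotRationalCurve k K) (z : Pool.Agent.LT.MM k K) :
    IntermediateField.adjoin (kbar k K) {z} ≠ ⊤ := by
  intro hz
  apply h ((z : Pool.Agent.LT.UU k K) : AlgebraicClosure K)
  rw [closure_alg, closure_alg]
  congr 1
  have h1 : IntermediateField.adjoin (kbar k K) (Set.range (algebraMap K (AlgebraicClosure K))) =
      (⊤ : IntermediateField (kbar k K) (Pool.Agent.LT.MM k K)).map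
        ((Pool.Agent.LT.UU k K).val.comp (Pool.Agent.LT.MM k K).val) := by
    change KK k K = _
    ext w
    constructor
    · intro hw
      exact ⟨⟨⟨w, Pool.Agent.LT.KK_le_UU k K hw⟩,
        (IntermediateField.mem_restrict (Pool.Agent.LT.KK_le_UU k K) _).2 hw⟩, trivial, rfl⟩
    · rintro ⟨m, -, rfl⟩
      exact (IntermediateField.mem_restrict (Pool.Agent.LT.KK_le_UU k K) _).1 m.2
  rw [h1, ← hz, IntermediateField.adjoin_map, Set.image_singleton]
  rfl

theorem val_eq {k₀ F k K₁ : Type u} [Field k₀] [Field F] [Field k] [Field K₁] [Algebra k₀ k]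
    [Algebra F k] [Algebra k K₁] {N : ℕ} (a : Fin N → F) (x z : K₁)
    (M : (MvPolynomial (Fin N) k₀)[X][X]) :
    val k a x z M = Pool.Agent.SE.ev3 (algebraMap k₀ k) (fun q => algebraMap F k (a q)) x z M := by
  rw [Pool.Agent.SE.ev3_eq, eval_map]
  unfold val
  congr 1
  apply Polynomial.ringHom_ext
  · intro c
    rw [coe_eval₂RingHom, eval₂_C, Pool.Agent.SE.ev3x_apply, map_C, aeval_C]
    have h : MvPolynomial.eval₂Hom ((algebraMap k K₁).comp (algebraMap k₀ k))
        (fun q => algebraMap k K₁ (algebraMap F k (a q))) = (algebraMap k K₁).comp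
        (Pool.Agent.SE.evp (algebraMap k₀ k) fun q => algebraMap F k (a q)) := by
      apply MvPolynomial.ringHom_ext
      · intro z
        rw [MvPolynomial.eval₂Hom_C, RingHom.comp_apply, RingHom.comp_apply, Pool.Agent.SE.evp_C]
      · intro q
        rw [MvPolynomial.eval₂Hom_X', RingHom.comp_apply, Pool.Agent.SE.evp_X]
    rw [h]
    rfl
  · rw [coe_eval₂RingHom, eval₂_X, Pool.Agent.SE.ev3x_apply, map_X, aeval_X]

/-- The degrees of the fields over which the twists have sections (not part of `result`): if one of the quotients
`w_i / w_l` is transcendental over `F₀`, outside one thin set given by a polynomial `Q` over `F₀`. -/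
theorem degrees {F₀ k₀ : Type u} [Field F₀] [CharZero F₀] [Field k₀] [Algebra F₀ k₀]
    -- `k₀` is a finitely generated field
    (hk₀ : ∃ S : Finset k₀, Subfield.closure (S : Set k₀) = ⊤)
    -- one of the quotients of the `w_e` is transcendental over `F₀`
    {m : ℕ} {w : Fin (m + 1) → k₀} (hw : ∃ i l, Transcendental F₀ (w i / w l))
    -- an arbitrary family of curves `M(a, x, z) = 0`, and functions `P_s(a, x, z)` on them
    {N r : ℕ} {M : (MvPolynomial (Fin N) k₀)[X][X]} (hM : Irreducible M) (hM0 : 0 < M.natDegree)
    {P : Fin r → (MvPolynomial (Fin N) k₀)[X][X]} (hP : ∀ s, ¬ M ∣ P s) :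
    -- there is one polynomial `Q` over `F₀`, without root
    ∃ Q : (MvPolynomial (Fin N ⊕ Fin (m + 1)) F₀)[X], NoRoot Q ∧
      -- such that the following holds for all composites `k = F k₀`
      ∀ (F k K₁ : Type u) [Field F] [Field k] [Field K₁] [Algebra F₀ F] [Algebra F₀ k] [Algebra F k]
        [Algebra k₀ k] [IsScalarTower F₀ F k] [IsScalarTower F₀ k₀ k] [Algebra k K₁],
        (∃ S : Finset F, Subfield.closure (S : Set F) = ⊤) → FreeComposite F₀ k₀ F k →
        ∀ (a : Fin N → F) (b : Fin (m + 1) → F), (∀ c : F, eval c (value Q (Sum.elim a b)) ≠ 0) →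
          -- and for the curve `K₁ = k(x, z)`, `M(a, x, z) = 0`, and all `g = ∏ P_s(a, x, z) ^ e_s`
          ∀ x z : K₁, Transcendental k x → IntermediateField.adjoin k {x, z} = ⊤ →
            val k a x z M = 0 → ∀ e : Fin r → ℤ,
              TwistsHaveSectionDegrees (∏ s, val k a x z (P s) ^ e s)
                (∑ i, algebraMap F k (b i) * algebraMap k₀ k (w i)) := by
  classical
  obtain ⟨i, l, hT⟩ := hw
  obtain ⟨Φ, hΦ, h⟩ := Pool.Agent.SE.degs_thinM Pool.Agent.SE.cfmF Pool.Agent.SE.tpF
    Pool.Agent.SE.epF hk₀ hT hM hM0 hP
  refine ⟨Φ, hΦ, ?_⟩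
  intro F k K₁ _ _ _ _ _ _ _ _ _ _ hF hfree a b hab x z hx hgen hMa e
  simp only [val_eq] at hMa ⊢
  refine h F k K₁ hF hfree.1 (fun {n x} hx => hfree.2 n x hx) x z hx hgen (Sum.elim a b)
    (fun c => ?_) hMa e
  have h1 := hab c
  unfold value at h1
  rw [eval_map] at h1
  exact h1

/-- **The section conjecture for the general twists in families of cyclic covers.** -/
theorem result {F₀ k₀ : Type u} [Field F₀] [CharZero F₀] [Field k₀] [Algebra F₀ k₀]
    -- `k₀` is a finitely generated field
    (hk₀ : ∃ S : Finset k₀, Subfield.closure (S : Set k₀) = ⊤)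
    -- two of the quotients of the `w_e` are algebraically independent over `F₀`
    {m : ℕ} {w : Fin (m + 1) → k₀}
    (hw : ∃ i j l, AlgebraicIndependent F₀ ![w i / w l, w j / w l])
    -- an arbitrary family of curves `M(a, x, z) = 0`, and functions `P_s(a, x, z)` on them
    {N r : ℕ} {M : (MvPolynomial (Fin N) k₀)[X][X]} (hM : Irreducible M) (hM0 : 0 < M.natDegree)
    {P : Fin r → (MvPolynomial (Fin N) k₀)[X][X]} (hP : ∀ s, ¬ M ∣ P s) :
    -- there is one polynomial `Q ≠ 0` over `F₀`
    ∃ Q : MvPolynomial (Fin N ⊕ Fin (m + 1)) F₀, Q ≠ 0 ∧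
      -- such that the following holds for all composites `k = F k₀`
      ∀ (F k K₁ : Type u) [Field F] [Field k] [Field K₁] [Algebra F₀ F] [Algebra F₀ k] [Algebra F k]
        [Algebra k₀ k] [IsScalarTower F₀ F k] [IsScalarTower F₀ k₀ k] [Algebra k K₁],
        (∃ S : Finset F, Subfield.closure (S : Set F) = ⊤) → FreeComposite F₀ k₀ F k →
        ∀ (a : Fin N → F) (b : Fin (m + 1) → F), MvPolynomial.aeval (Sum.elim a b) Q ≠ 0 →
          -- and for the curve `K₁ = k(x, z)`, `M(a, x, z) = 0`, and all `g = ∏ P_s(a, x, z) ^ e_s`
          ∀ x z : K₁, Transcendental k x → IntermediateField.adjoin k {x, z} = ⊤ →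
            val k a x z M = 0 → ∀ e : Fin r → ℤ,
              TwistsSatisfySC (∏ s, val k a x z (P s) ^ e s)
                (∑ i, algebraMap F k (b i) * algebraMap k₀ k (w i)) := by
  classical
  obtain ⟨i, j, l, hind⟩ := id hw
  obtain ⟨Ψ, hΨ, h⟩ := Pool.Agent.RP.rp_hypersurfaceM hk₀ hind hM hM0 hP
  refine ⟨Ψ, hΨ, ?_⟩
  intro F k K₁ _ _ _ _ _ _ _ _ _ _ hF hfree a b hab x z hx hgen hMa e
  simp only [val_eq] at hMa ⊢
  intro n j hn hj K _ _ _ _ y hgen' heq hrat s
  exact h F k K₁ hF hfree.1 (fun {n x} hx => hfree.2 n x hx) x z hx hgen (Sum.elim a b) hab hMa e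
    n j hn hj K y hgen' heq (not_rational hrat) s

end Pool.Agent.Results.MP_e66f84_ag.TwistsUniform
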